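import Pool.Agent.Lib.MP_7874c9_co.Data

open Pool.Agent.Lib.MP_7874c9_co in
/-- For every `n ≥ 112` some `C₆`-saturated graph on `n` vertices contains no `C₄`. -/
theorem Pool.Agent.Results.MP_7874c9_co.NoFourCycle.result :
    ∀ n : ℕ, 112 ≤ n → ∃ G : SimpleGraph (Fin n),
      (¬ (SimpleGraph.cycleGraph 6).IsContained G ∧
        ∀ u v : Fin n, u ≠ v → ¬ G.Adj u v →
          (SimpleGraph.cycleGraph 6).IsContained (G ⊔ SimpleGraph.edge u v)) ∧
      ¬ (SimpleGraph.cycleGraph 4).IsContained G := by
  intro n hn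
  have h : (n - 3) % 24 = 0 ∨ (n - 3) % 24 = 1 ∨ (n - 3) % 24 = 2 ∨ (n - 3) % 24 = 3 ∨ (n - 3) % 24 = 4 ∨ (n - 3) % 24 = 5 ∨ (n - 3) % 24 = 6 ∨ (n - 3) % 24 = 7 ∨ (n - 3) % 24 = 8 ∨ (n - 3) % 24 = 9 ∨ (n - 3) % 24 = 10 ∨ (n - 3) % 24 = 11 ∨ (n - 3) % 24 = 12 ∨ (n - 3) % 24 = 13 ∨ (n - 3) % 24 = 14 ∨ (n - 3) % 24 = 15 ∨ (n - 3) % 24 = 16 ∨ (n - 3) % 24 = 17 ∨ (n - 3) % 24 = 18 ∨ (n - 3) % 24 = 19 ∨ (n - 3) % 24 = 20 ∨ (n - 3) % 24 = 21 ∨ (n - 3) % 24 = 22 ∨ (n - 3) % 24 = 23 := by omega
  rcases h with h | h | h | h | h | h | h | h | h | h | h | h | h | h | h | h | h | h | h | h | h | h | h | h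
  · exact exists_graph good0 (k := (n - 3) / 24) (by omega) (by omega)
  · exact exists_graph good25 (k := (n - 28) / 24) (by omega) (by omega)
  · exact exists_graph good2 (k := (n - 5) / 24) (by omega) (by omega)
  · exact exists_graph good3 (k := (n - 6) / 24) (by omega) (by omega)
  · exact exists_graph good28 (k := (n - 31) / 24) (by omega) (by omega)
  · exact exists_graph good29 (k := (n - 32) / 24) (by omega) (by omega)
  · exact exists_graph good30 (k := (n - 33) / 24) (by omega) (by omega)
  · exact exists_graph good7 (k := (n - 10) / 24) (by omega) (by omega)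
  · exact exists_graph good32 (k := (n - 35) / 24) (by omega) (by omega)
  · exact exists_graph good33 (k := (n - 36) / 24) (by omega) (by omega)
  · exact exists_graph good10 (k := (n - 13) / 24) (by omega) (by omega)
  · exact exists_graph good11 (k := (n - 14) / 24) (by omega) (by omega)
  · exact exists_graph good12 (k := (n - 15) / 24) (by omega) (by omega)
  · exact exists_graph good37 (k := (n - 40) / 24) (by omega) (by omega)
  · exact exists_graph good14 (k := (n - 17) / 24) (by omega) (by omega)
  · exact exists_graph good15 (k := (n - 18) / 24) (by omega) (by omega)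
  · exact exists_graph good16 (k := (n - 19) / 24) (by omega) (by omega)
  · exact exists_graph good17 (k := (n - 20) / 24) (by omega) (by omega)
  · exact exists_graph good18 (k := (n - 21) / 24) (by omega) (by omega)
  · exact exists_graph good19 (k := (n - 22) / 24) (by omega) (by omega)
  · exact exists_graph good20 (k := (n - 23) / 24) (by omega) (by omega)
  · exact exists_graph good21 (k := (n - 24) / 24) (by omega) (by omega)
  · exact exists_graph good22 (k := (n - 25) / 24) (by omega) (by omega)
  · exact exists_graph good23 (k := (n - 26) / 24) (by omega) (by omega)
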